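import Pool.Agent.H70.GSC.Targets
import Pool.Agent.H6.GS2.Bas

/-!
# Theorem (G), MP_c59857_nt: the distance of two sums
-/

set_option autoImplicit false

open Finset Pool.Agent.H6.N4D Pool.Agent.H93 Pool.Agent.H93.GS Pool.Agent.H70.GSC

namespace Pool.Agent.H38.GSC

lemma ar_one_one (N n : ℕ) (hN : 1 ≤ N) : ar 1 N n (fun _ => 1) = 1 := by
  unfold ar
  have h1 : (Ioc n (n + N)).filter (fun m => 1 ∣ m) = Ioc n (n + N) :=
    filter_true_of_mem fun m _ => one_dvd m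
  have h2 : (N : ℝ) ≠ 0 := by
    have : N ≠ 0 := by omega
    exact_mod_cast this
  rw [h1, sum_const, nsmul_eq_mul, Nat.card_Ioc, mul_one, Nat.add_sub_cancel_left]
  push_cast
  field_simp

theorem pf_D2G (hG : H6.GS2.T_GRM) : T_D2G := by
  obtain ⟨K, hK, hG⟩ := hG
  refine ⟨K, hK, ?_⟩
  intro N n r S c C G b γ s Λ h g hN hKN hKr hs hsep hh hg
  have h1 := hG N n r Λ γ s C G hN hKN hKr hs hsep
  set V : ℕ → ℂ := fun m => ∑ i ∈ range r, (C i * ee ((γ i + s i / N) * m) -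
      G i * ee (γ i * m)) with hV
  set U : ℕ → ℂ := fun m => ∑ j ∈ S, c j * ee (b j * m) with hU
  have h2 : ∀ m : ℕ, h.f m - g.f m = U m + V m := by
    intro m
    rw [hh, hg, sg, hV, hU]
    simp only [sum_sub_distrib]
    ring
  have h3 : ∀ m : ℕ, ‖U m‖ ≤ ∑ j ∈ S, ‖c j‖ := by
    intro m
    rw [hU]
    refine (norm_sum_le _ _).trans (le_of_eq ?_)
    exact sum_congr rfl fun i _ => by rw [norm_mul, norm_ee, mul_one]
  have h4 : ar 1 N n (fun m => 1 / 2 * ‖V m‖ ^ 2 - (∑ j ∈ S, ‖c j‖) ^ 2 * 1) ≤ d2 1 N n h g := by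
    unfold d2
    apply H6.GS2.ar_mono
    intro m _ _
    rw [h2]
    have h5 : ‖V m‖ ≤ ‖U m + V m‖ + ‖U m‖ := by
      calc ‖V m‖ = ‖(U m + V m) - U m‖ := by congr 1; ring
        _ ≤ _ := norm_sub_le _ _
    have h6 := h3 m
    have h7 : ‖U m‖ ^ 2 ≤ (∑ j ∈ S, ‖c j‖) ^ 2 := pow_le_pow_left₀ (norm_nonneg _) h6 2
    have h8 : ‖V m‖ ^ 2 ≤ (‖U m + V m‖ + ‖U m‖) ^ 2 := pow_le_pow_left₀ (norm_nonneg _) h5 2
    have h9 := sq_nonneg (‖U m + V m‖ - ‖U m‖)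
    linarith [h7, h8, h9]
  rw [H6.GS2.ar_sub, H6.GS2.ar_mul, H6.GS2.ar_mul, ar_one_one N n hN] at h4
  have h5 : ∑ i ∈ range r, gz N n (C i) (G i) (s i) ^ 2 =
      ∑ i ∈ range r, (‖H6.GS2.ctr N n (C i) (s i) - G i‖ + ‖C i‖ * |s i|) ^ 2 := rfl
  rw [h5]
  linarith [h1, h4]

end Pool.Agent.H38.GSC
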