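import Pool.Agent.H70.GSC.Targets
import Pool.Agent.H6.GS2.Bas

/-!
# Theorem (G), MP_c59857_nt: the mean square on the multiples of `q` and on the window
-/

set_option autoImplicit false

open Finset Pool.Agent.H6.N4D Pool.Agent.H93 Pool.Agent.H93.GS Pool.Agent.H70.GSC

namespace Pool.Agent.H38.GSC

lemma ar_D (q N n : ℕ) (F : ℕ → ℝ) :
    ar q N n F - ar 1 N n F = ar 1 N n (fun m => EB.D q m * F m) := by
  unfold ar EB.D
  have h1 : (Ioc n (n + N)).filter (fun m => 1 ∣ m) = Ioc n (n + N) :=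
    filter_true_of_mem fun m _ => one_dvd m
  rw [h1, sum_filter]
  have h2 : ∑ m ∈ Ioc n (n + N), ((if q ∣ m then (q : ℝ) else 0) - 1) * F m =
      (∑ m ∈ Ioc n (n + N), if q ∣ m then F m else 0) * q - ∑ m ∈ Ioc n (n + N), F m := by
    rw [sum_mul, ← sum_sub_distrib]
    apply sum_congr rfl
    intro m _
    by_cases h : q ∣ m
    · rw [if_pos h, if_pos h]; ring
    · rw [if_neg h, if_neg h]; ring
  rw [h2]
  push_cast
  ring

lemma ee_sub (x y : ℝ) : ee (x - y) = ee x * (starRingEnd ℂ) (ee y) := by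
  rw [H6.GS2.conj_ee, ← ee_add]
  congr 1

/-- the change of the mean square, for a finite family of exponentials -/
lemma gen {ι : Type} (I : Finset ι) (q N n : ℕ) (z : ι → ℂ) (f : ι → ℝ) (B : ι → ι → ℝ)
    (hB : ∀ x ∈ I, ∀ y ∈ I, ‖z x‖ * ‖z y‖ *
      ‖ac 1 N n (fun m => (EB.D q m : ℂ) * ee ((f x - f y) * m))‖ ≤ ‖z x‖ * ‖z y‖ * B x y) :
    |ar q N n (fun m => ‖∑ x ∈ I, z x * ee (f x * m)‖ ^ 2) -
      ar 1 N n (fun m => ‖∑ x ∈ I, z x * ee (f x * m)‖ ^ 2)| ≤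
      ∑ x ∈ I, ∑ y ∈ I, ‖z x‖ * ‖z y‖ * B x y := by
  rw [ar_D]
  have h1 : ∀ m : ℕ, ((EB.D q m * ‖∑ x ∈ I, z x * ee (f x * m)‖ ^ 2 : ℝ) : ℂ) =
      ∑ x ∈ I, ∑ y ∈ I, (z x * (starRingEnd ℂ) (z y)) *
        ((EB.D q m : ℂ) * ee ((f x - f y) * m)) := by
    intro m
    rw [← Complex.normSq_eq_norm_sq, Complex.ofReal_mul, ← Complex.mul_conj, map_sum,
      sum_mul_sum, mul_sum]
    apply sum_congr rfl
    intro x _
    rw [mul_sum]
    apply sum_congr rfl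
    intro y _
    rw [sub_mul, ee_sub, map_mul]
    ring
  have h2 : ar 1 N n (fun m => EB.D q m * ‖∑ x ∈ I, z x * ee (f x * m)‖ ^ 2) =
      (ac 1 N n (fun m => ((EB.D q m * ‖∑ x ∈ I, z x * ee (f x * m)‖ ^ 2 : ℝ) : ℂ))).re := by
    rw [H6.GS2.ac_re]
    exact H6.GS2.ar_congr _ _ _ fun m _ _ => (Complex.ofReal_re _).symm
  have h3 : ac 1 N n (fun m => ((EB.D q m * ‖∑ x ∈ I, z x * ee (f x * m)‖ ^ 2 : ℝ) : ℂ)) =
      ∑ x ∈ I, ∑ y ∈ I, (z x * (starRingEnd ℂ) (z y)) *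
        ac 1 N n (fun m => (EB.D q m : ℂ) * ee ((f x - f y) * m)) := by
    rw [H6.GS2.ac_congr 1 N n (fun m _ _ => h1 m), H6.GS2.ac_sum]
    apply sum_congr rfl
    intro x _
    rw [H6.GS2.ac_sum]
    apply sum_congr rfl
    intro y _
    rw [H6.GS2.ac_mul]
  rw [h2, h3]
  refine (Complex.abs_re_le_norm _).trans ?_
  refine (norm_sum_le _ _).trans (sum_le_sum fun x hx => ?_)
  refine (norm_sum_le _ _).trans (sum_le_sum fun y hy => ?_)
  rw [norm_mul, norm_mul, Complex.norm_conj]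
  exact hB x hx y hy

theorem pf_NRQ (hK : H6.GS2.T_KER) : T_NRQ := by
  intro q N n r S c C b y Λ η hq hqN hΛ hη hSS hSr hrr
  have hq0 : (0 : ℝ) < q := by exact_mod_cast hq
  have hN0 : (0 : ℝ) < N := by exact_mod_cast (le_trans hq hqN)
  -- pairs with far frequencies
  have far : ∀ x : ℝ, Λ * q / N ≤ nd (q * x) →
      ‖ac 1 N n (fun m => (EB.D q m : ℂ) * ee (x * m))‖ ≤ 1 / Λ := by
    intro x hx
    have h0 : 0 < Λ * q / N := by positivity
    have h1 := (hK q N n x hq hqN).2.1 (lt_of_lt_of_le h0 hx)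
    refine h1.trans ?_
    rw [div_le_div_iff₀ (mul_pos hN0 (lt_of_lt_of_le h0 hx)) hΛ]
    have h2 : Λ * q ≤ nd (q * x) * N := by rwa [div_le_iff₀ hN0] at hx
    linarith
  have dia : ‖ac 1 N n (fun m => (EB.D q m : ℂ) * ee ((0 : ℝ) * m))‖ ≤ q / N := by
    have h1 := (hK q N n 0 hq hqN).1
    have h2 : ∀ m : ℕ, (EB.D q m : ℂ) * ee ((0 : ℝ) * m) = (EB.D q m : ℂ) := by
      intro m
      rw [zero_mul, EB.ee_zero, mul_one]
    rw [H6.GS2.ac_congr 1 N n (fun m _ _ => h2 m)]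
    exact h1
  have hdiv : (0 : ℝ) ≤ q / N := by positivity
  have hdiv2 : (0 : ℝ) ≤ q / (2 * N * η) := by positivity
  have hL0 : (0 : ℝ) ≤ 1 / Λ := by positivity
  set I : Finset (ℕ ⊕ ℕ) := S.disjSum (range r) with hI
  set z : ℕ ⊕ ℕ → ℂ := Sum.elim c C with hz
  set f : ℕ ⊕ ℕ → ℝ := Sum.elim b y with hf
  set B : ℕ ⊕ ℕ → ℕ ⊕ ℕ → ℝ := Sum.elim (fun _ => Sum.elim (fun _ => 1 / Λ + q / N)
    (fun _ => 1 / Λ)) (fun _ => Sum.elim (fun _ => 1 / Λ) (fun _ => q / N + q / (2 * N * η)))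
    with hB
  have hsg : ∀ m : ℕ, sg S c b r C y m = ∑ x ∈ I, z x * ee (f x * m) := by
    intro m
    rw [hI, sum_disjSum]
    rfl
  have key := gen I q N n z f B (by
    intro x hx w hw
    rw [hI, mem_disjSum] at hx hw
    rcases hx with ⟨j, hj, rfl⟩ | ⟨i, hi, rfl⟩
    · rcases hw with ⟨l, hl, rfl⟩ | ⟨l, hl, rfl⟩
      · apply mul_le_mul_of_nonneg_left _ (by positivity)
        show ‖ac 1 N n (fun m => (EB.D q m : ℂ) * ee ((b j - b l) * m))‖ ≤ 1 / Λ + q / N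
        by_cases hjl : j = l
        · subst hjl
          rw [sub_self]
          linarith
        · linarith [far _ (hSS j hj l hl hjl)]
      · show ‖c j‖ * ‖C l‖ * ‖ac 1 N n (fun m => (EB.D q m : ℂ) * ee ((b j - y l) * m))‖ ≤
          ‖c j‖ * ‖C l‖ * (1 / Λ)
        by_cases hC : C l = 0
        · rw [hC, norm_zero, mul_zero, zero_mul, zero_mul]
        · apply mul_le_mul_of_nonneg_left _ (by positivity)
          exact far _ (hSr j hj l (mem_range.1 hl) hC)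
    · rcases hw with ⟨l, hl, rfl⟩ | ⟨l, hl, rfl⟩
      · show ‖C i‖ * ‖c l‖ * ‖ac 1 N n (fun m => (EB.D q m : ℂ) * ee ((y i - b l) * m))‖ ≤
          ‖C i‖ * ‖c l‖ * (1 / Λ)
        by_cases hC : C i = 0
        · rw [hC, norm_zero, zero_mul, zero_mul, zero_mul]
        · apply mul_le_mul_of_nonneg_left _ (by positivity)
          apply far
          have h1 := hSr l hl i (mem_range.1 hi) hC
          have h2 : (q : ℝ) * (y i - b l) = -(q * (b l - y i)) := by ring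
          rw [h2, nd_neg]
          exact h1
      · apply mul_le_mul_of_nonneg_left _ (by positivity)
        show ‖ac 1 N n (fun m => (EB.D q m : ℂ) * ee ((y i - y l) * m))‖ ≤
          q / N + q / (2 * N * η)
        by_cases hil : i = l
        · subst hil
          rw [sub_self]
          linarith
        · have h1 := (hK q N n (y i - y l) hq hqN).2.2 (N * η) (by positivity) (by
            intro e he
            have h2 := hrr i (mem_range.1 hi) l (mem_range.1 hl) hil e he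
            have h3 : (N : ℝ) * η / N = η := by field_simp
            rw [h3]
            exact h2)
          rw [← mul_assoc] at h1
          linarith)
  have hsg' : (fun m : ℕ => ‖sg S c b r C y m‖ ^ 2) =
      fun m : ℕ => ‖∑ x ∈ I, z x * ee (f x * m)‖ ^ 2 := by
    funext m
    rw [hsg]
  rw [hsg']
  refine key.trans ?_
  have hsum : ∑ x ∈ I, ∑ w ∈ I, ‖z x‖ * ‖z w‖ * B x w =
      (∑ j ∈ S, ‖c j‖) ^ 2 * (1 / Λ + q / N) +
      2 * ((∑ j ∈ S, ‖c j‖) * (∑ i ∈ range r, ‖C i‖) * (1 / Λ)) +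
      (∑ i ∈ range r, ‖C i‖) ^ 2 * (q / N + q / (2 * N * η)) := by
    have e1 : ∀ x, ∑ w ∈ I, ‖z x‖ * ‖z w‖ * B x w =
        ∑ j ∈ S, ‖z x‖ * ‖c j‖ * B x (Sum.inl j) +
          ∑ i ∈ range r, ‖z x‖ * ‖C i‖ * B x (Sum.inr i) := by
      intro x
      rw [hI, sum_disjSum]
      rfl
    have e2 : ∀ j : ℕ, ∑ w ∈ I, ‖z (Sum.inl j)‖ * ‖z w‖ * B (Sum.inl j) w =
        ‖c j‖ * ((∑ j ∈ S, ‖c j‖) * (1 / Λ + q / N) + (∑ i ∈ range r, ‖C i‖) * (1 / Λ)) := by
      intro j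
      rw [e1, mul_add, sum_mul, sum_mul, mul_sum, mul_sum]
      congr 1
      · exact sum_congr rfl fun l _ => by
          show ‖c j‖ * ‖c l‖ * (1 / Λ + q / N) = _
          ring
      · exact sum_congr rfl fun l _ => by
          show ‖c j‖ * ‖C l‖ * (1 / Λ) = _
          ring
    have e3 : ∀ i : ℕ, ∑ w ∈ I, ‖z (Sum.inr i)‖ * ‖z w‖ * B (Sum.inr i) w =
        ‖C i‖ * ((∑ j ∈ S, ‖c j‖) * (1 / Λ) +
          (∑ i ∈ range r, ‖C i‖) * (q / N + q / (2 * N * η))) := by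
      intro j
      rw [e1, mul_add, sum_mul, sum_mul, mul_sum, mul_sum]
      congr 1
      · exact sum_congr rfl fun l _ => by
          show ‖C j‖ * ‖c l‖ * (1 / Λ) = _
          ring
      · exact sum_congr rfl fun l _ => by
          show ‖C j‖ * ‖C l‖ * (q / N + q / (2 * N * η)) = _
          ring
    have e4 : ∑ x ∈ I, ∑ w ∈ I, ‖z x‖ * ‖z w‖ * B x w =
        ∑ j ∈ S, ∑ w ∈ I, ‖z (Sum.inl j)‖ * ‖z w‖ * B (Sum.inl j) w +
          ∑ i ∈ range r, ∑ w ∈ I, ‖z (Sum.inr i)‖ * ‖z w‖ * B (Sum.inr i) w := by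
      rw [hI, sum_disjSum]
    rw [e4, sum_congr rfl fun j _ => e2 j, sum_congr rfl fun j _ => e3 j, ← sum_mul, ← sum_mul]
    ring
  rw [hsum]
  set s : ℝ := ∑ j ∈ S, ‖c j‖
  set t : ℝ := ∑ i ∈ range r, ‖C i‖
  have hs : 0 ≤ s := sum_nonneg fun _ _ => norm_nonneg _
  have ht : 0 ≤ t := sum_nonneg fun _ _ => norm_nonneg _
  have hst := mul_nonneg hs ht
  have e5 : 2 * s * (s + t) / Λ + (q / N + q / (2 * N * η)) * (s + t) ^ 2 -
      (s ^ 2 * (1 / Λ + q / N) + 2 * (s * t * (1 / Λ)) + t ^ 2 * (q / N + q / (2 * N * η))) =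
      s ^ 2 * (1 / Λ) + 2 * (s * t) * (q / N + q / (2 * N * η)) + s ^ 2 * (q / (2 * N * η)) := by
    rw [div_eq_mul_one_div (2 * s * (s + t)) Λ]
    ring
  have e6 : 0 ≤ s ^ 2 * (1 / Λ) + 2 * (s * t) * (q / N + q / (2 * N * η)) +
      s ^ 2 * (q / (2 * N * η)) := by positivity
  linarith [e5, e6]

end Pool.Agent.H38.GSC
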